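import Mathlib
import Pool.Agent.Helper19.BS.Rigid

set_option autoImplicit false

open AlgebraicGeometry CategoryTheory Polynomial TensorProduct Cardinal

namespace Pool.Agent.Helper17.BSR

open Pool.Agent.Helper19.BS

variable {T : MotTheory} (hT : IsMotivic T)

include hT

/-- Every class `u` over `Ω` is defined over a subfield `E` algebraic over `k(b_i)`, where the
`b_i` belong to a transcendence basis of `Ω`, and if a conjugate `σ u` comes from a field `L` such
that the `σ b_i` are algebraically independent over `L` then `u` comes from `k`. -/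
theorem isolate {k Ω : Type} [Field k] [CharZero k] [IsAlgClosed k] [Field Ω] [IsAlgClosed Ω]
    [Algebra k Ω] (i j : ℤ) (u : T.H (Sp Ω) i j) :
    ∃ (B : Set Ω) (r : ℕ) (β₀ : Fin r → B) (E : IntermediateField k Ω) (uE : T.H (Sp E) i j),
      IsTranscendenceBasis k ((↑) : B → Ω) ∧ Function.Injective β₀ ∧
      T.res (algebraMap E Ω) i j uE = u ∧ E ≤ clos k (Set.range fun i => (β₀ i : Ω)) ∧
      ∀ (σ : Ω ≃ₐ[k] Ω) (L : IntermediateField k Ω),
        AlgebraicIndependent L (fun i => σ (β₀ i : Ω)) →
        T.res (σ : Ω →+* Ω) i j u ∈ LinearMap.range (T.res (algebraMap L Ω) i j) →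
        u ∈ LinearMap.range (T.res (algebraMap k Ω) i j) := by
  classical
  have hcΩ : CharZero Ω := charZero_of_injective_algebraMap (algebraMap k Ω).injective
  obtain ⟨F, hF, b, hb⟩ := hT.continuity Ω i j u
  obtain ⟨G, hG⟩ := hF
  let E := IntermediateField.adjoin k (G : Set Ω)
  have hcE : CharZero E := charZero_of_injective_algebraMap (algebraMap k E).injective
  have hFE : ∀ z : F, (z : Ω) ∈ E := by
    intro z
    have h1 : F ≤ (IntermediateField.restrictScalars ℚ E) := by
      rw [← hG, IntermediateField.adjoin_le_iff]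
      intro g hg
      exact IntermediateField.subset_adjoin k (G : Set Ω) hg
    exact h1 z.2
  let ι : F →+* E :=
    { toFun := fun z => ⟨z, hFE z⟩
      map_one' := rfl
      map_mul' := fun _ _ => rfl
      map_zero' := rfl
      map_add' := fun _ _ => rfl }
  let uE := T.res ι i j b
  have huE : T.res (algebraMap E Ω) i j uE = u := by
    rw [← hb]
    exact res_eq hT (isSm_field F) (isSm_field E) (isSm_field Ω) (RingHom.ext fun _ => rfl) i j b
  obtain ⟨A, _, _, _, _, τ, hτ, hGA, u', hu'⟩ := exists_model hT G i j uE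
  obtain ⟨B, r, β₀, hB, hβ₀, hβG, hGc⟩ := exists_basis (k := k) G
  have hE : E ≤ clos k (Set.range fun i => (β₀ i : Ω)) := by
    rw [IntermediateField.adjoin_le_iff]
    intro g hg
    exact hGc g hg
  refine ⟨B, r, β₀, E, uE, hB, hβ₀, huE, hE, ?_⟩
  intro σ L hind hx
  obtain ⟨v, hv⟩ := hx
  let τx : A →ₐ[k] Ω := ((σ : Ω ≃ₐ[k] Ω) : Ω →ₐ[k] Ω).comp ((E.val).comp τ)
  have hτx : Function.Injective τx :=
    σ.injective.comp (Subtype.val_injective.comp hτ)
  have hdens : DensePoints k A := densePoints_of_isAlgClosed k A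
  have hdom : IsDomain (A ⊗[k] L) := isDomain_tensor hdens
  choose t ht using fun i => hGA (β₀ i) (hβG i)
  have hinj : Function.Injective (both (L := L) τx) := by
    refine both_injective τx hτx t ?_ ?_ hdom
    · intro a
      refine isAlgebraic_of_map ((E.val).comp τ) (Subtype.val_injective.comp hτ) t a ?_
      have h1 : ((E.val).comp τ) a ∈ clos k (Set.range fun i => (β₀ i : Ω)) := hE (τ a).2
      rw [mem_clos, IntermediateField.isAlgebraic_adjoin_iff] at h1
      have h2 : (fun i => ((E.val).comp τ) (t i)) = fun i => (β₀ i : Ω) := funext ht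
      rw [h2]
      exact h1
    · have h2 : (fun i => τx (t i)) = fun i => σ (β₀ i : Ω) := by
        funext i
        show σ ((τ (t i) : E) : Ω) = _
        rw [ht]
      rw [h2]
      exact hind
  have hcL : CharZero L := charZero_of_injective_algebraMap (algebraMap k L).injective
  have smA : IsSm (Sp A) := isSm_of_smooth k A
  have hkey : T.res (τx : A →+* Ω) i j u' = T.res (algebraMap L Ω) i j v := by
    rw [hv, ← huE, ← hu']
    rw [← res_comp hT smA (isSm_field E) (isSm_field Ω),
      ← res_comp hT smA (isSm_field Ω) (isSm_field Ω)]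
    rfl
  obtain ⟨c, hc⟩ := evaluate hT hdens τx hinj i j u' v hkey
  refine ⟨c, ?_⟩
  apply hT.res_injective ((σ : Ω ≃ₐ[k] Ω) : Ω →+* Ω)
  have hhom : ((σ : Ω ≃ₐ[k] Ω) : Ω →+* Ω).comp (algebraMap k Ω) =
      (algebraMap L Ω).comp (algebraMap k L) := by
    ext z
    show σ (algebraMap k Ω z) = _
    rw [AlgEquiv.commutes]
    rfl
  rw [← hv, ← hc, ← res_comp' hT, ← res_comp' hT, hhom]

end Pool.Agent.Helper17.BSR
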