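import Mathlib
import Pool.Agent.Helper17.BSR.Isolate

set_option autoImplicit false

open AlgebraicGeometry CategoryTheory Polynomial TensorProduct Cardinal

namespace Pool.Agent.Helper17.BSR

open Pool.Agent.Helper19.BS

/-- the conjugate pairs `x_b ± I y_b` -/
def pairs {B Ω : Type} [Field Ω] (I : Ω) (x : B ⊕ B → Ω) : B ⊕ B → Ω :=
  Sum.elim (fun b => x (.inl b) + I * x (.inr b)) (fun b => x (.inl b) - I * x (.inr b))

theorem pairs_basis {k Ω B : Type} [Field k] [CharZero k] [Field Ω] [Algebra k Ω] (I : k)
    (hI : I * I = -1) (x : B ⊕ B → Ω) (hx : IsTranscendenceBasis k x) :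
    IsTranscendenceBasis k (pairs (algebraMap k Ω I) x) := by
  have hI0 : I ≠ 0 := by
    rintro rfl
    rw [mul_zero] at hI
    exact one_ne_zero (neg_eq_zero.1 hI.symm)
  have h2 : (2 : k) ≠ 0 := two_ne_zero
  have h2Ω : (2 : Ω) ≠ 0 := by
    have : CharZero Ω := charZero_of_injective_algebraMap (algebraMap k Ω).injective
    exact two_ne_zero
  let φ : MvPolynomial (B ⊕ B) k →ₐ[k] MvPolynomial (B ⊕ B) k := MvPolynomial.aeval
    (Sum.elim (fun b => MvPolynomial.X (.inl b) + MvPolynomial.C I * MvPolynomial.X (.inr b))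
      (fun b => MvPolynomial.X (.inl b) - MvPolynomial.C I * MvPolynomial.X (.inr b)))
  let ψ : MvPolynomial (B ⊕ B) k →ₐ[k] MvPolynomial (B ⊕ B) k := MvPolynomial.aeval
    (Sum.elim (fun b => MvPolynomial.C (1 / 2) * (MvPolynomial.X (.inl b) + MvPolynomial.X (.inr b)))
      (fun b => MvPolynomial.C (1 / (2 * I)) *
        (MvPolynomial.X (.inl b) - MvPolynomial.X (.inr b))))
  have hψφ : ψ.comp φ = AlgHom.id k _ := by
    apply MvPolynomial.algHom_ext
    rintro (b | b)
    · simp only [φ, ψ, AlgHom.comp_apply, MvPolynomial.aeval_X, Sum.elim_inl, map_add, map_mul,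
        Sum.elim_inr, MvPolynomial.algHom_C, AlgHom.id_apply, MvPolynomial.algebraMap_eq]
      have : (MvPolynomial.C I * (MvPolynomial.C (1 / (2 * I)) *
        (MvPolynomial.X (.inl b) - MvPolynomial.X (.inr b))) : MvPolynomial (B ⊕ B) k) =
        MvPolynomial.C (1 / 2) * (MvPolynomial.X (.inl b) - MvPolynomial.X (.inr b)) := by
        rw [← mul_assoc, ← MvPolynomial.C_mul]
        congr 2
        field_simp
      rw [this, ← mul_add]
      have h3 : (MvPolynomial.X (.inl b) + MvPolynomial.X (.inr b) +
        (MvPolynomial.X (.inl b) - MvPolynomial.X (.inr b)) : MvPolynomial (B ⊕ B) k) =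
        MvPolynomial.C 2 * MvPolynomial.X (.inl b) := by
        rw [map_ofNat]; ring
      rw [h3, ← mul_assoc, ← MvPolynomial.C_mul]
      rw [one_div, inv_mul_cancel₀ h2, MvPolynomial.C_1, one_mul]
    · simp only [φ, ψ, AlgHom.comp_apply, MvPolynomial.aeval_X, Sum.elim_inl, map_sub, map_mul,
        Sum.elim_inr, MvPolynomial.algHom_C, AlgHom.id_apply, MvPolynomial.algebraMap_eq]
      have : (MvPolynomial.C I * (MvPolynomial.C (1 / (2 * I)) *
        (MvPolynomial.X (.inl b) - MvPolynomial.X (.inr b))) : MvPolynomial (B ⊕ B) k) =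
        MvPolynomial.C (1 / 2) * (MvPolynomial.X (.inl b) - MvPolynomial.X (.inr b)) := by
        rw [← mul_assoc, ← MvPolynomial.C_mul]
        congr 2
        field_simp
      rw [this, ← mul_sub]
      have h3 : (MvPolynomial.X (.inl b) + MvPolynomial.X (.inr b) -
        (MvPolynomial.X (.inl b) - MvPolynomial.X (.inr b)) : MvPolynomial (B ⊕ B) k) =
        MvPolynomial.C 2 * MvPolynomial.X (.inr b) := by
        rw [map_ofNat]; ring
      rw [h3, ← mul_assoc, ← MvPolynomial.C_mul]
      rw [one_div, inv_mul_cancel₀ h2, MvPolynomial.C_1, one_mul]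
  have hcomp : (MvPolynomial.aeval x : MvPolynomial (B ⊕ B) k →ₐ[k] Ω).comp φ =
      MvPolynomial.aeval (pairs (algebraMap k Ω I) x) := by
    apply MvPolynomial.algHom_ext
    rintro (b | b)
    · simp only [φ, AlgHom.comp_apply, MvPolynomial.aeval_X, Sum.elim_inl, map_add, map_mul,
        MvPolynomial.algHom_C, pairs]
    · simp only [φ, AlgHom.comp_apply, MvPolynomial.aeval_X, Sum.elim_inr, map_sub, map_mul,
        MvPolynomial.algHom_C, pairs]
  have hφinj : Function.Injective φ := by
    intro p q hpq
    have := congrArg ψ hpq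
    rw [← AlgHom.comp_apply, ← AlgHom.comp_apply, hψφ] at this
    exact this
  have hind : AlgebraicIndependent k (pairs (algebraMap k Ω I) x) := by
    show Function.Injective (MvPolynomial.aeval (pairs (algebraMap k Ω I) x))
    rw [← hcomp]
    intro p q hpq
    exact hφinj (hx.1 hpq)
  rw [isTranscendenceBasis_iff_algebraicIndependent_isAlgebraic]
  refine ⟨hind, ?_⟩
  have halg := hx.isAlgebraic
  have hle : Algebra.adjoin k (Set.range x) ≤
      Algebra.adjoin k (Set.range (pairs (algebraMap k Ω I) x)) := by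
    rw [Algebra.adjoin_le_iff]
    have hI' : algebraMap k Ω I ≠ 0 := (_root_.map_ne_zero (algebraMap k Ω)).2 hI0
    rintro _ ⟨b | b, rfl⟩
    · have h1 : x (.inl b) = (1 / 2 : k) • (pairs (algebraMap k Ω I) x (.inl b) +
          pairs (algebraMap k Ω I) x (.inr b)) := by
        simp only [pairs, Sum.elim_inl, Sum.elim_inr, Algebra.smul_def, map_div₀, map_one,
          map_ofNat]
        field_simp
        ring
      rw [h1]
      exact Subalgebra.smul_mem _ (Subalgebra.add_mem _ (Algebra.subset_adjoin (Set.mem_range_self _))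
        (Algebra.subset_adjoin (Set.mem_range_self _))) _
    · have h1 : x (.inr b) = (1 / (2 * I) : k) • (pairs (algebraMap k Ω I) x (.inl b) -
          pairs (algebraMap k Ω I) x (.inr b)) := by
        simp only [pairs, Sum.elim_inl, Sum.elim_inr, Algebra.smul_def, map_div₀, map_one,
          map_ofNat, map_mul]
        field_simp
        ring
      rw [h1]
      exact Subalgebra.smul_mem _ (Subalgebra.sub_mem _ (Algebra.subset_adjoin (Set.mem_range_self _))
        (Algebra.subset_adjoin (Set.mem_range_self _))) _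
  refine ⟨fun z => ?_⟩
  obtain ⟨p, hp0, hp⟩ := halg.1 z
  refine ⟨p.map (Subalgebra.inclusion hle).toRingHom, ?_, ?_⟩
  · rw [Ne, Polynomial.map_eq_zero_iff]
    · exact hp0
    · exact Subalgebra.inclusion_injective hle
  · rw [Polynomial.aeval_def, Polynomial.eval₂_map]
    exact hp

/-- images of algebraic elements under automorphisms which preserve the base field -/
theorem semi_mem_clos {k Ω : Type} [Field k] [Field Ω] [Algebra k Ω] (c : Ω ≃+* Ω)
    (hck : ∀ q : k, ∃ q' : k, c (algebraMap k Ω q) = algebraMap k Ω q') (S S' : Set Ω)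
    (h : ∀ s ∈ S, c s ∈ S') {z : Ω} (hz : z ∈ clos k S) : c z ∈ clos k S' := by
  rw [mem_clos] at hz ⊢
  have h0 : ∀ y ∈ IntermediateField.adjoin k S, c y ∈ IntermediateField.adjoin k S' := by
    intro y hy
    induction hy using IntermediateField.adjoin_induction with
    | mem s hs => exact IntermediateField.subset_adjoin k S' (h s hs)
    | algebraMap q =>
      obtain ⟨q', hq'⟩ := hck q
      rw [hq']
      exact IntermediateField.algebraMap_mem _ q'
    | add y y' _ _ hy hy' => rw [map_add]; exact add_mem hy hy'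
    | inv y _ hy => rw [map_inv₀]; exact inv_mem hy
    | mul y y' _ _ hy hy' => rw [map_mul]; exact mul_mem hy hy'
  let e : IntermediateField.adjoin k S →+* IntermediateField.adjoin k S' :=
    { toFun := fun x => ⟨c x, h0 x x.2⟩
      map_one' := Subtype.ext (map_one c)
      map_mul' := fun x y => Subtype.ext (map_mul c _ _)
      map_zero' := Subtype.ext (map_zero c)
      map_add' := fun x y => Subtype.ext (map_add c _ _) }
  exact IsAlgebraic.ringHom_of_comp_eq e (c : Ω →+* Ω) hz e.injective (RingHom.ext fun _ => rfl)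

end Pool.Agent.Helper17.BSR
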